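import Pool.Agent.Leo4.Stmts

/-!
Squad leo4: basic facts on the ring `O = ℤ[φ]` (evaluation homomorphisms, norm).
-/

set_option autoImplicit false

open NumberField IsDedekindDomain Module

namespace Pool.Agent.Leo4

section ev

variable {A : Type} [CommRing A]

theorem ev_add (f : A) (x y : O) : ev f (x + y) = ev f x + ev f y := by
  simp only [ev, QuadraticAlgebra.re_add, QuadraticAlgebra.im_add, Int.cast_add]
  ring

theorem ev_neg (f : A) (x : O) : ev f (-x) = -ev f x := by
  simp only [ev, QuadraticAlgebra.re_neg, QuadraticAlgebra.im_neg, Int.cast_neg]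
  ring

theorem ev_sub (f : A) (x y : O) : ev f (x - y) = ev f x - ev f y := by
  rw [sub_eq_add_neg, ev_add, ev_neg, sub_eq_add_neg]

theorem ev_mul {f : A} (hf : f ^ 2 = f + 1) (x y : O) : ev f (x * y) = ev f x * ev f y := by
  simp only [ev, QuadraticAlgebra.re_mul, QuadraticAlgebra.im_mul, Int.cast_add, Int.cast_mul,
    Int.cast_one]
  linear_combination (-(x.im : A) * y.im) * hf

@[simp] theorem ev_zero (f : A) : ev f 0 = 0 := by
  simp [ev]

@[simp] theorem ev_one (f : A) : ev f 1 = 1 := by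
  simp [ev, QuadraticAlgebra.re_one, QuadraticAlgebra.im_one]

@[simp] theorem ev_phi (f : A) : ev f phi = f := by
  simp [ev, phi]

/-- Evaluation at a root of `x² = x + 1` as a ring homomorphism. -/
def evHom (f : A) (hf : f ^ 2 = f + 1) : O →+* A where
  toFun := ev f
  map_one' := ev_one f
  map_mul' := ev_mul hf
  map_zero' := ev_zero f
  map_add' := ev_add f

@[simp] theorem evHom_apply (f : A) (hf : f ^ 2 = f + 1) (x : O) : evHom f hf x = ev f x := rfl

@[simp] theorem ev_intCast (f : A) (n : ℤ) : ev f (n : O) = n := by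
  simp [ev]

@[simp] theorem ev_natCast (f : A) (n : ℕ) : ev f (n : O) = n := by
  simp [ev]

@[simp] theorem ev_ofNat (f : A) (n : ℕ) [n.AtLeastTwo] : ev f (OfNat.ofNat n : O) = OfNat.ofNat n := by
  have h := ev_natCast f n
  exact_mod_cast h

theorem ev_pow {f : A} (hf : f ^ 2 = f + 1) (x : O) (n : ℕ) : ev f (x ^ n) = ev f x ^ n :=
  map_pow (evHom f hf) x n

/-- Functoriality. -/
theorem map_ev {B : Type} [CommRing B] (σ : A →+* B) (f : A) (x : O) : σ (ev f x) = ev (σ f) x := by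
  simp [ev]

end ev

/-! ### the norm -/

theorem nm_eq_norm (x : O) : nm x = QuadraticAlgebra.norm x := by
  rw [QuadraticAlgebra.norm_def, nm]
  ring

theorem nm_mul (x y : O) : nm (x * y) = nm x * nm y := by
  simp only [nm_eq_norm, map_mul]

@[simp] theorem nm_one : nm 1 = 1 := by simp [nm, QuadraticAlgebra.re_one, QuadraticAlgebra.im_one]

@[simp] theorem nm_zero : nm 0 = 0 := by simp [nm]

theorem nm_pow (x : O) (n : ℕ) : nm (x ^ n) = nm x ^ n := by
  simp only [nm_eq_norm, map_pow]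

theorem nm_neg (x : O) : nm (-x) = nm x := by
  simp [nm]

theorem nm_star (x : O) : nm (star x) = nm x := by
  simp only [nm_eq_norm, QuadraticAlgebra.norm_star]

theorem nm_intCast (n : ℤ) : nm (n : O) = n ^ 2 := by
  simp [nm]

@[simp] theorem nm_phi : nm phi = -1 := by simp [nm, phi]

/-- `x · x̄ = N x`. -/
theorem mul_star_eq (x : O) : x * star x = ((nm x : ℤ) : O) := by
  rw [nm_eq_norm, ← QuadraticAlgebra.algebraMap_norm_eq_mul_star]
  rfl

/-- `N x` evaluated. -/
theorem ev_mul_ev_star {A : Type} [CommRing A] {f : A} (hf : f ^ 2 = f + 1) (x : O) :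
    ev f x * ev f (star x) = (nm x : A) := by
  rw [← ev_mul hf, mul_star_eq, ev_intCast]

/-- `5` is not a square. -/
theorem sq_ne_five_mul {a b : ℤ} (h : a ^ 2 = 5 * b ^ 2) : b = 0 := by
  by_contra hb
  have h1 : Irrational (Real.sqrt 5) := by
    have : Irrational (Real.sqrt ((5 : ℕ) : ℝ)) := Nat.Prime.irrational_sqrt (by norm_num)
    simpa using this
  apply h1
  refine ⟨|(a : ℚ)| / |(b : ℚ)|, ?_⟩
  have hb' : |(b : ℝ)| ≠ 0 := by
    simpa using (by exact_mod_cast hb : (b : ℝ) ≠ 0)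
  push_cast
  rw [div_eq_iff hb']
  have h2 : |(a : ℝ)| = Real.sqrt (5 * (b : ℝ) ^ 2) := by
    rw [← Real.sqrt_sq_eq_abs]
    congr 1
    exact_mod_cast h
  rw [h2, Real.sqrt_mul (by norm_num), Real.sqrt_sq_eq_abs]

theorem nm_eq_zero {x : O} (h : nm x = 0) : x = 0 := by
  have h1 : (2 * x.re + x.im) ^ 2 = 5 * x.im ^ 2 := by
    rw [nm] at h
    linear_combination 4 * h
  have h2 : x.im = 0 := sq_ne_five_mul h1
  rw [h2] at h1
  have h3 : x.re = 0 := by
    have : 2 * x.re = 0 := by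
      have h4 : (2 * x.re) ^ 2 = 0 := by linarith
      exact pow_eq_zero_iff two_ne_zero |>.1 h4
    omega
  ext
  · exact h3
  · exact h2

instance : IsDomain O := by
  have h : NoZeroDivisors O := ⟨by
    intro a b hab
    have h1 : nm a * nm b = 0 := by rw [← nm_mul, hab, nm_zero]
    rcases mul_eq_zero.1 h1 with h2 | h2
    · exact Or.inl (nm_eq_zero h2)
    · exact Or.inr (nm_eq_zero h2)⟩
  have : Nontrivial O := ⟨0, 1, by
    intro h
    have := congrArg QuadraticAlgebra.re h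
    simp [QuadraticAlgebra.re_one] at this⟩
  exact NoZeroDivisors.to_isDomain O

theorem nm_ne_zero {x : O} (h : x ≠ 0) : nm x ≠ 0 := fun h1 => h (nm_eq_zero h1)

theorem one_le_abs_nm {x : O} (h : x ≠ 0) : 1 ≤ |nm x| := Int.one_le_abs (nm_ne_zero h)

/-- Evaluation is injective in characteristic zero. -/
theorem ev_inj {A : Type} [CommRing A] [CharZero A] {f : A} (hf : f ^ 2 = f + 1) {x y : O}
    (h : ev f x = ev f y) : x = y := by
  have h1 : ev f (x - y) = 0 := by rw [ev_sub, h, sub_self]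
  have h2 : ((nm (x - y) : ℤ) : A) = 0 := by
    rw [← ev_mul_ev_star hf, h1, zero_mul]
  have h3 : nm (x - y) = 0 := by exact_mod_cast h2
  exact sub_eq_zero.1 (nm_eq_zero h3)

theorem ev_ne_zero {A : Type} [CommRing A] [CharZero A] {f : A} (hf : f ^ 2 = f + 1) {x : O}
    (h : x ≠ 0) : ev f x ≠ 0 := by
  intro h1
  exact h (ev_inj hf (h1.trans (ev_zero f).symm))

theorem isUnit_iff_nm {x : O} : IsUnit x ↔ nm x = 1 ∨ nm x = -1 := by
  rw [QuadraticAlgebra.isUnit_iff_norm_isUnit, ← nm_eq_norm, Int.isUnit_iff]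

/-! ### the real embeddings -/

theorem gold_sq : Real.goldenRatio ^ 2 = Real.goldenRatio + 1 := Real.goldenRatio_sq

theorem conj_sq : Real.goldenConj ^ 2 = Real.goldenConj + 1 := Real.goldenConj_sq

theorem e1_mul (x y : O) : e1 (x * y) = e1 x * e1 y := ev_mul gold_sq x y

theorem e2_mul (x y : O) : e2 (x * y) = e2 x * e2 y := ev_mul conj_sq x y

theorem e1_add (x y : O) : e1 (x + y) = e1 x + e1 y := ev_add _ x y

theorem e2_add (x y : O) : e2 (x + y) = e2 x + e2 y := ev_add _ x y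

theorem e1_sub (x y : O) : e1 (x - y) = e1 x - e1 y := ev_sub _ x y

theorem e2_sub (x y : O) : e2 (x - y) = e2 x - e2 y := ev_sub _ x y

theorem e1_neg (x : O) : e1 (-x) = -e1 x := ev_neg _ x

theorem e2_neg (x : O) : e2 (-x) = -e2 x := ev_neg _ x

theorem e1_pow (x : O) (n : ℕ) : e1 (x ^ n) = e1 x ^ n := ev_pow gold_sq x n

theorem e2_pow (x : O) (n : ℕ) : e2 (x ^ n) = e2 x ^ n := ev_pow conj_sq x n

@[simp] theorem e1_zero : e1 0 = 0 := ev_zero _

@[simp] theorem e2_zero : e2 0 = 0 := ev_zero _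

@[simp] theorem e1_one : e1 1 = 1 := ev_one _

@[simp] theorem e2_one : e2 1 = 1 := ev_one _

@[simp] theorem e1_phi : e1 phi = Real.goldenRatio := ev_phi _

@[simp] theorem e2_phi : e2 phi = Real.goldenConj := ev_phi _

@[simp] theorem e1_intCast (n : ℤ) : e1 (n : O) = n := ev_intCast _ n

@[simp] theorem e2_intCast (n : ℤ) : e2 (n : O) = n := ev_intCast _ n

@[simp] theorem e1_ofNat (n : ℕ) [n.AtLeastTwo] : e1 (OfNat.ofNat n : O) = OfNat.ofNat n :=
  ev_ofNat _ n

@[simp] theorem e2_ofNat (n : ℕ) [n.AtLeastTwo] : e2 (OfNat.ofNat n : O) = OfNat.ofNat n :=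
  ev_ofNat _ n

theorem e1_star (x : O) : e1 (star x) = e2 x := by
  have h : Real.goldenRatio + Real.goldenConj = 1 := Real.goldenRatio_add_goldenConj
  simp only [e1, e2, ev, QuadraticAlgebra.re_star, QuadraticAlgebra.im_star]
  push_cast
  linear_combination (-(x.im : ℝ)) * h

theorem e2_star (x : O) : e2 (star x) = e1 x := by
  rw [← e1_star (star x), star_star]

theorem nm_eq (x : O) : (nm x : ℝ) = e1 x * e2 x := by
  rw [← e1_star, ← e1_mul, mul_star_eq, e1_intCast]

theorem e1_inj {x y : O} (h : e1 x = e1 y) : x = y := ev_inj gold_sq h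

theorem e2_inj {x y : O} (h : e2 x = e2 y) : x = y := ev_inj conj_sq h

theorem e1_ne_zero {x : O} (h : x ≠ 0) : e1 x ≠ 0 := ev_ne_zero gold_sq h

theorem e2_ne_zero {x : O} (h : x ≠ 0) : e2 x ≠ 0 := ev_ne_zero conj_sq h

/-- nonzero elements have `|x₁ x₂| ≥ 1`. -/
theorem one_le_abs_mul {x : O} (h : x ≠ 0) : 1 ≤ |e1 x| * |e2 x| := by
  rw [← abs_mul, ← nm_eq]
  exact_mod_cast one_le_abs_nm h

/-- `re` and `im` from the embeddings. -/
theorem im_eq (x : O) : (x.im : ℝ) * Real.sqrt 5 = e1 x - e2 x := by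
  have h : Real.goldenRatio - Real.goldenConj = Real.sqrt 5 := Real.goldenRatio_sub_goldenConj
  simp only [e1, e2, ev]
  linear_combination (-(x.im : ℝ)) * h

theorem tr_eq (x : O) : (2 * x.re + x.im : ℝ) = e1 x + e2 x := by
  have h : Real.goldenRatio + Real.goldenConj = 1 := Real.goldenRatio_add_goldenConj
  simp only [e1, e2, ev]
  linear_combination (-(x.im : ℝ)) * h

end Pool.Agent.Leo4
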