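import Pool.Agent.Helper68_Leo4.Basic
import Pool.Agent.Helper60_Leo3.Tools

/-!
Squad leo4, module OKR: the ring `O = ℤ[φ]`.
-/

set_option autoImplicit false

open NumberField IsDedekindDomain Module

namespace Pool.Agent.Leo4

/-- `O` is Euclidean for the norm. -/
theorem euclid (a b : O) (hb : b ≠ 0) : ∃ q : O, |nm (a - b * q)| < |nm b| := by
  obtain ⟨w, hw⟩ : ∃ w : O, w = a * star b := ⟨_, rfl⟩
  obtain ⟨N, hN⟩ : ∃ N : ℤ, N = nm b := ⟨_, rfl⟩
  have hN0 : N ≠ 0 := by rw [hN]; exact nm_ne_zero hb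
  -- nearest integers
  have hr : ∀ u : ℤ, ∃ s : ℤ, 4 * (u - N * s) ^ 2 ≤ N ^ 2 := by
    intro u
    refine ⟨round ((u : ℚ) / N), ?_⟩
    have hNQ : (N : ℚ) ≠ 0 := by exact_mod_cast hN0
    have h1 := abs_sub_round ((u : ℚ) / N)
    have h2 : ((u : ℚ) - N * round ((u : ℚ) / N)) = N * ((u : ℚ) / N - round ((u : ℚ) / N)) := by
      field_simp
    have h3 : (4 * (u - N * round ((u : ℚ) / N)) ^ 2 : ℚ) ≤ (N : ℚ) ^ 2 := by
      rw [h2, mul_pow]
      have h4 : ((u : ℚ) / N - round ((u : ℚ) / N)) ^ 2 ≤ (1 / 2) ^ 2 := by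
        rw [← sq_abs]
        exact pow_le_pow_left₀ (abs_nonneg _) h1 2
      nlinarith [sq_nonneg (N : ℚ)]
    exact_mod_cast h3
  obtain ⟨s, hs⟩ := hr w.re
  obtain ⟨t, ht⟩ := hr w.im
  refine ⟨⟨s, t⟩, ?_⟩
  obtain ⟨p, hp⟩ : ∃ p, p = w.re - N * s := ⟨_, rfl⟩
  obtain ⟨r, hrr⟩ : ∃ r, r = w.im - N * t := ⟨_, rfl⟩
  have h1 : nm (a - b * ⟨s, t⟩) * N = p ^ 2 + p * r - r ^ 2 := by
    have h2 : (a - b * ⟨s, t⟩) * star b = ⟨p, r⟩ := by
      have h3 : b * star b = ((N : ℤ) : O) := by rw [hN]; exact mul_star_eq b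
      have h4 : (a - b * ⟨s, t⟩) * star b = w - ((N : ℤ) : O) * ⟨s, t⟩ := by
        rw [hw, ← h3]
        ring
      rw [h4, hp, hrr]
      ext <;> simp
    have h5 : nm ((a - b * ⟨s, t⟩) * star b) = p ^ 2 + p * r - r ^ 2 := by
      rw [h2]
      rfl
    rw [nm_mul, nm_star, ← hN] at h5
    exact h5
  rw [← hN]
  rw [← hp] at hs
  rw [← hrr] at ht
  have hNp : 0 < N ^ 2 := by positivity
  have h6 : |nm (a - b * ⟨s, t⟩) * N| < N ^ 2 := by
    rw [h1, abs_lt]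
    constructor <;> nlinarith [sq_nonneg (p + r), sq_nonneg (p - r)]
  rw [abs_mul, ← sq_abs N, pow_two] at h6
  exact lt_of_mul_lt_mul_right h6 (abs_nonneg N)

/-- division with remainder, in a convenient form. -/
theorem exists_div (a b : O) (hb : b ≠ 0) : ∃ q r : O, a = b * q + r ∧ |nm r| < |nm b| := by
  obtain ⟨q, hq⟩ := euclid a b hb
  exact ⟨q, a - b * q, by ring, hq⟩

instance : IsPrincipalIdealRing O := by
  refine ⟨fun I => ?_⟩
  by_cases hI : I = ⊥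
  · exact ⟨0, by rw [hI]; simp⟩
  · obtain ⟨x, hx, hx0⟩ := Submodule.exists_mem_ne_zero_of_ne_bot hI
    obtain ⟨n, ⟨y, hy, hy0, hyn⟩, hmin⟩ : ∃ n : ℕ, (∃ y ∈ I, y ≠ 0 ∧ (nm y).natAbs = n) ∧
        ∀ k < n, ¬ ∃ y ∈ I, y ≠ 0 ∧ (nm y).natAbs = k := by
      classical
      have h : ∃ n : ℕ, ∃ y ∈ I, y ≠ 0 ∧ (nm y).natAbs = n := ⟨_, x, hx, hx0, rfl⟩
      exact ⟨Nat.find h, Nat.find_spec h, fun k hk => Nat.find_min h hk⟩
    refine ⟨y, le_antisymm (fun z hz => ?_) ((Ideal.span_singleton_le_iff_mem I).2 hy)⟩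
    obtain ⟨q, r, hqr, hr⟩ := exists_div z y hy0
    have hrI : r ∈ I := by
      have : r = z - y * q := by rw [hqr]; ring
      rw [this]
      exact I.sub_mem hz (I.mul_mem_right q hy)
    have hr0 : r = 0 := by
      by_contra hr0
      refine hmin _ ?_ ⟨r, hrI, hr0, rfl⟩
      rw [← hyn]
      have h1 := Int.natAbs_lt_natAbs_of_nonneg_of_lt (abs_nonneg _) hr
      rwa [Int.natAbs_abs, Int.natAbs_abs] at h1
    rw [hr0, add_zero] at hqr
    rw [hqr]
    exact Ideal.mul_mem_right _ _ (Ideal.mem_span_singleton_self y)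

/-- a prime criterion. -/
theorem dvd_natCast_iff (n : ℤ) (x : O) : ((n : ℤ) : O) ∣ x ↔ n ∣ x.re ∧ n ∣ x.im := by
  constructor
  · rintro ⟨y, rfl⟩
    constructor <;> simp
  · rintro ⟨⟨a, ha⟩, ⟨b, hb⟩⟩
    refine ⟨⟨a, b⟩, ?_⟩
    ext <;> simp [ha, hb]

theorem two_dvd_iff (x : O) : (2 : O) ∣ x ↔ (2 : ℤ) ∣ x.re ∧ (2 : ℤ) ∣ x.im := by
  have := dvd_natCast_iff 2 x
  push_cast at this
  exact this

theorem three_dvd_iff (x : O) : (3 : O) ∣ x ↔ (3 : ℤ) ∣ x.re ∧ (3 : ℤ) ∣ x.im := by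
  have := dvd_natCast_iff 3 x
  push_cast at this
  exact this

theorem two_dvd_nm {x : O} (h : (2 : ℤ) ∣ nm x) : (2 : O) ∣ x := by
  rw [two_dvd_iff]
  have h1 : ((nm x : ℤ) : ZMod 2) = 0 := (ZMod.intCast_zmod_eq_zero_iff_dvd _ 2).2 h
  rw [nm] at h1
  push_cast at h1
  have key : ∀ a b : ZMod 2, a ^ 2 + a * b - b ^ 2 = 0 → a = 0 ∧ b = 0 := by decide
  obtain ⟨h2, h3⟩ := key _ _ h1
  exact ⟨(ZMod.intCast_zmod_eq_zero_iff_dvd _ 2).1 h2, (ZMod.intCast_zmod_eq_zero_iff_dvd _ 2).1 h3⟩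

theorem three_dvd_nm {x : O} (h : (3 : ℤ) ∣ nm x) : (3 : O) ∣ x := by
  rw [three_dvd_iff]
  have h1 : ((nm x : ℤ) : ZMod 3) = 0 := (ZMod.intCast_zmod_eq_zero_iff_dvd _ 3).2 h
  rw [nm] at h1
  push_cast at h1
  have key : ∀ a b : ZMod 3, a ^ 2 + a * b - b ^ 2 = 0 → a = 0 ∧ b = 0 := by decide
  obtain ⟨h2, h3⟩ := key _ _ h1
  exact ⟨(ZMod.intCast_zmod_eq_zero_iff_dvd _ 3).1 h2, (ZMod.intCast_zmod_eq_zero_iff_dvd _ 3).1 h3⟩

theorem nm_two : nm 2 = 4 := by
  have := nm_intCast 2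
  push_cast at this
  exact this

theorem nm_three : nm 3 = 9 := by
  have := nm_intCast 3
  push_cast at this
  exact this

theorem prime_two : Prime (2 : O) := by
  refine ⟨?_, ?_, ?_⟩
  · intro h
    have := congrArg nm h
    rw [nm_two, nm_zero] at this
    norm_num at this
  · rw [isUnit_iff_nm, nm_two]
    norm_num
  · intro a b hab
    obtain ⟨c, hc⟩ := hab
    have h1 : nm a * nm b = 4 * nm c := by rw [← nm_mul, hc, nm_mul, nm_two]
    have h2 : (2 : ℤ) ∣ nm a * nm b := ⟨2 * nm c, by rw [h1]; ring⟩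
    rcases Int.prime_two.dvd_or_dvd h2 with h | h
    · exact Or.inl (two_dvd_nm h)
    · exact Or.inr (two_dvd_nm h)

theorem prime_three : Prime (3 : O) := by
  refine ⟨?_, ?_, ?_⟩
  · intro h
    have := congrArg nm h
    rw [nm_three, nm_zero] at this
    norm_num at this
  · rw [isUnit_iff_nm, nm_three]
    norm_num
  · intro a b hab
    obtain ⟨c, hc⟩ := hab
    have h1 : nm a * nm b = 9 * nm c := by rw [← nm_mul, hc, nm_mul, nm_three]
    have h2 : (3 : ℤ) ∣ nm a * nm b := ⟨3 * nm c, by rw [h1]; ring⟩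
    rcases Int.prime_three.dvd_or_dvd h2 with h | h
    · exact Or.inl (three_dvd_nm h)
    · exact Or.inr (three_dvd_nm h)

/-! ### integral elements of `ℚ(√5)` -/

/-- `f` is not rational. -/
theorem ne_rat {k : Type} [Field k] [CharZero k] {f : k} (hf : f ^ 2 = f + 1) (q : ℚ) : (q : k) ≠ f := by
  intro h
  rw [← h] at hf
  have h1 : q ^ 2 = q + 1 := by exact_mod_cast hf
  have h2 : (2 * q - 1) ^ 2 = 5 := by linear_combination 4 * h1
  have h3 : Irrational (Real.sqrt 5) := by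
    have : Irrational (Real.sqrt ((5 : ℕ) : ℝ)) := Nat.Prime.irrational_sqrt (by norm_num)
    simpa using this
  apply h3
  refine ⟨|2 * q - 1|, ?_⟩
  have h4 : ((2 * q - 1 : ℚ) : ℝ) ^ 2 = 5 := by exact_mod_cast congrArg (Rat.cast : ℚ → ℝ) h2
  rw [← h4, Real.sqrt_sq_eq_abs]
  push_cast
  rfl

/-- coordinates with respect to `1, f`. -/
theorem exists_coord {k : Type} [Field k] [NumberField k] {f : k} (hk : finrank ℚ k = 2)
    (hf : f ^ 2 = f + 1) (x : k) : ∃ s t : ℚ, x = s + t * f := by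
  have hli : LinearIndependent ℚ ![(1 : k), f] := by
    rw [LinearIndependent.pair_iff]
    intro s t hst
    have ht : t = 0 := by
      by_contra ht
      refine ne_rat hf (-s / t) ?_
      have ht' : (t : k) ≠ 0 := by exact_mod_cast ht
      push_cast
      rw [div_eq_iff ht']
      rw [Rat.smul_def, Rat.smul_def] at hst
      linear_combination -hst
    rw [ht, zero_smul, add_zero, Rat.smul_def, mul_one] at hst
    exact ⟨by exact_mod_cast hst, ht⟩
  have hsp : Submodule.span ℚ (Set.range ![(1 : k), f]) = ⊤ :=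
    hli.span_eq_top_of_card_eq_finrank (by rw [Fintype.card_fin, hk])
  have hx : x ∈ Submodule.span ℚ (Set.range ![(1 : k), f]) := by rw [hsp]; trivial
  rw [Matrix.range_cons, Matrix.range_cons, Matrix.range_empty, Set.union_empty,
    Set.singleton_union, Submodule.mem_span_pair] at hx
  obtain ⟨s, t, hst⟩ := hx
  refine ⟨s, t, ?_⟩
  rw [← hst, Rat.smul_def, Rat.smul_def, mul_one]

/-- the conjugation of `k = ℚ(√5)`. -/
theorem exists_bar {k : Type} [Field k] [NumberField k] {f : k} (hk : finrank ℚ k = 2)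
    (hf : f ^ 2 = f + 1) : ∃ τ : k ≃ₐ[ℚ] k, τ f = 1 - f := by
  have : Algebra.IsQuadraticExtension ℚ k := ⟨hk⟩
  have hr2 : (2 * f - 1) ^ 2 = algebraMap ℚ k 5 := by
    rw [map_ofNat]
    linear_combination 4 * hf
  obtain ⟨τ, hτ⟩ := Leo3.H60.exists_conj (K := ℚ) (L := k) (2 * f - 1) 5 hr2 (by
    intro x hx
    refine ne_rat hf ((x + 1) / 2) ?_
    rw [eq_ratCast] at hx
    push_cast
    rw [hx]
    ring)
  refine ⟨τ, ?_⟩
  rw [map_sub, map_mul, map_one, map_ofNat] at hτ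
  have h2 : (2 : k) ≠ 0 := two_ne_zero
  have : (2 : k) * (τ f) = 2 * (1 - f) := by linear_combination hτ
  exact mul_left_cancel₀ h2 this

theorem integral_rat {k : Type} [Field k] [NumberField k] {x : k} (hx : IsIntegral ℤ x) {q : ℚ}
    (h : (q : k) = x) : ∃ n : ℤ, q = n := by
  have h1 : IsIntegral ℤ q := by
    rw [← h] at hx
    have h2 : IsIntegral ℤ (algebraMap ℚ k q) := by rw [eq_ratCast]; exact hx
    exact (isIntegral_algebraMap_iff (algebraMap ℚ k).injective).1 h2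
  obtain ⟨n, hn⟩ := IsIntegrallyClosed.isIntegral_iff.1 h1
  exact ⟨n, by rw [← hn]; simp⟩

theorem integral_ev {k : Type} [Field k] [NumberField k] {f : k} (hk : finrank ℚ k = 2)
    (hf : f ^ 2 = f + 1) {x : k} (hx : IsIntegral ℤ x) : ∃ y : O, x = ev f y := by
  obtain ⟨τ, hτ⟩ := exists_bar hk hf
  obtain ⟨s, t, hst⟩ := exists_coord hk hf x
  have hτx : τ x = s + t * (1 - f) := by
    rw [hst, map_add, map_mul, hτ, map_ratCast, map_ratCast]
  have hxτ : IsIntegral ℤ (τ x) := hx.map (τ.restrictScalars ℤ)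
  obtain ⟨T, hT⟩ := integral_rat (q := 2 * s + t) (hx.add hxτ) (by
    rw [hτx]
    conv_rhs => rw [hst]
    push_cast
    ring)
  obtain ⟨n, hn⟩ := integral_rat (q := s ^ 2 + s * t - t ^ 2) (hx.mul hxτ) (by
    rw [hτx]
    conv_rhs => rw [hst]
    push_cast
    linear_combination ((t : k) ^ 2) * hf)
  -- `5 t²` is an integer
  have h5 : 5 * t ^ 2 = ((T ^ 2 - 4 * n : ℤ) : ℚ) := by
    push_cast
    rw [← hT, ← hn]
    ring
  have ht : ∃ u : ℤ, t = u := by
    have hden : t.den = 1 := by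
      by_contra hd
      obtain ⟨p, hp, hpd⟩ := Nat.exists_prime_and_dvd hd
      have h6 : (5 * t.num ^ 2 : ℤ) = (T ^ 2 - 4 * n) * (t.den : ℤ) ^ 2 := by
        have h7 : (t.num : ℚ) = t * t.den := (Rat.mul_den_eq_num t).symm
        have h8 : (5 * (t.num : ℚ) ^ 2) = ((T ^ 2 - 4 * n : ℤ) : ℚ) * (t.den : ℚ) ^ 2 := by
          rw [h7, ← h5]
          ring
        exact_mod_cast h8
      have hpZ : Prime (p : ℤ) := Nat.prime_iff_prime_int.1 hp
      have hpd' : (p : ℤ) ∣ (t.den : ℤ) := by exact_mod_cast hpd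
      have h9 : (p : ℤ) ^ 2 ∣ 5 * t.num ^ 2 := by
        rw [h6]
        exact Dvd.dvd.mul_left (pow_dvd_pow_of_dvd hpd' 2) _
      have hnum : ¬ (p : ℤ) ∣ t.num := by
        intro h10
        have h11 : p ∣ t.num.natAbs := Int.natCast_dvd.1 h10
        have := Nat.Coprime.eq_one_of_dvd (Nat.Coprime.coprime_dvd_left h11 t.reduced) hpd
        exact hp.one_lt.ne' this
      have h12 : IsCoprime ((p : ℤ) ^ 2) (t.num ^ 2) :=
        IsCoprime.pow (((Prime.coprime_iff_not_dvd hpZ).2 hnum))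
      have h13 : (p : ℤ) ^ 2 ∣ 5 := h12.dvd_of_dvd_mul_right h9
      have h14 : (p : ℤ) ^ 2 ≤ 5 := Int.le_of_dvd (by norm_num) h13
      have h15 : (p : ℤ) < 3 := by nlinarith [hp.two_le]
      have h16 : p = 2 := by have := hp.two_le; omega
      rw [h16] at h13
      norm_num at h13
    refine ⟨t.num, ?_⟩
    have := Rat.mul_den_eq_num t
    rw [hden] at this
    simpa using this
  obtain ⟨u, hu⟩ := ht
  have hpar : (2 : ℤ) ∣ T - u := by
    rw [hu] at h5
    have h6 : (5 * u ^ 2 : ℤ) = T ^ 2 - 4 * n := by exact_mod_cast h5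
    have h7 := congrArg (Int.cast : ℤ → ZMod 2) h6
    push_cast at h7
    have key : ∀ a b c : ZMod 2, 5 * a ^ 2 = b ^ 2 - 4 * c → b - a = 0 := by decide
    have h8 := key _ _ _ h7
    refine (ZMod.intCast_zmod_eq_zero_iff_dvd _ 2).1 ?_
    push_cast
    exact h8
  obtain ⟨v, hv⟩ := hpar
  refine ⟨⟨v, u⟩, ?_⟩
  have hs : s = v := by
    have h6 : (2 : ℚ) * s = 2 * v := by
      have : ((T - u : ℤ) : ℚ) = ((2 * v : ℤ) : ℚ) := by rw [hv]
      push_cast at this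
      rw [← hT, hu] at this
      linear_combination this
    linear_combination h6 / 2
  rw [hst, hs, hu]
  simp [ev]

/-- OKR. -/
theorem okr : OkrStmt :=
  ⟨inferInstance, inferInstance, prime_two, prime_three, euclid, nm_mul,
    fun x y => ⟨e1_mul x y, e2_mul x y⟩, nm_eq, fun _ h => nm_eq_zero h, fun _ => isUnit_iff_nm,
    fun _ _ _ _ hk hf _ hx => integral_ev hk hf hx⟩

end Pool.Agent.Leo4
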