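import Pool.Agent.Helper68_Leo4.Fin2
import Pool.Agent.Helper68_Leo4.Okr
import Pool.Agent.Helper5_Leo4.MctFin
import Pool.Agent.Helper11_Leo4.Flr
import Pool.Agent.Helper24_Leo4.Plu
import Pool.Agent.Helper29_Leo4.Chv
import Pool.Agent.Helper32_Leo4.Qua
import Pool.Agent.Helper32_Leo4.Sma
import Pool.Agent.Helper33_Leo4.Clo
import Pool.Agent.Helper33_Leo4.Hil
import Pool.Agent.Helper37_Leo4.Box
import Pool.Agent.Helper37_Leo4.Cud
import Pool.Agent.Helper37_Leo4.Scl
import Pool.Agent.Helper39_Leo4.Cbe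
import Pool.Agent.Helper39_Leo4.Cuc
import Pool.Agent.Helper43_Leo4.Idl
import Pool.Agent.Helper47_Leo4.Sqf
import Pool.Agent.Helper52_Leo4.Cub
import Pool.Agent.Helper52_Leo4.Eis
import Pool.Agent.Helper56_Leo4.Cus
import Pool.Agent.Helper56_Leo4.Rqu
import Pool.Agent.Helper57_Leo4.Cpt
import Pool.Agent.Helper57_Leo4.Ltu
import Pool.Agent.Helper63_Leo4.Uni
import Pool.Agent.Helper65_Leo4.Key
import Pool.Agent.Helper65_Leo4.Rnk
import Pool.Agent.Helper67_Leo4.Fld
import Pool.Agent.Helper69_Leo4.Bad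
import Pool.Agent.Helper69_Leo4.Inj
import Pool.Agent.Helper75_Leo4.Mns
import Pool.Agent.Helper75_Leo4.Ref
import Pool.Agent.Helper76_Leo4.Dns
import Pool.Agent.Helper81_Leo4.Val
import Pool.Agent.Helper83_Leo4.Qnm
import Pool.Agent.Helper85_Leo4.Apx
import Pool.Agent.Helper85_Leo4.Lc2
import Pool.Agent.Helper85_Leo4.Nmk
import Pool.Agent.Helper87_Leo4.Vol3
import Pool.Agent.Helper89_Leo4.Gal
import Pool.Agent.Helper90_Leo4.Biq
import Pool.Agent.Helper90_Leo4.Num
import Pool.Agent.Helper11_Leo3.Loc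
import Pool.Agent.Helper21_Leo3.Tow
import Pool.Agent.Helper65_Leo3.Crt
import Pool.Agent.Helper83_Leo3.Gup
import Pool.Agent.Helper93_Leo3.Leo

/-!
Squad leo4: all modules together.
-/

set_option autoImplicit false

open Pool.Agent.Leo3

namespace Pool.Agent.Leo4

theorem cbe' : CbeStmt := H39.cbe okr

theorem val' : ValStmt := H81.val okr

theorem plu' : PluStmt := H24.plu okr H63.uni cbe' H85.apx H85.lc2

theorem mns' : MnsStmt := H75.mns okr val' cbe' plu'

theorem qua' : QuaStmt := H32.qua okr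

theorem idl' : IdlStmt := H43.idl okr H63.uni val' cbe' qua'

theorem eis' : EisStmt := H52.eis okr qua' idl' H52.cub H11.flr

theorem key' : KeyStmt := H65.key H85.nmk mns' (H75.ref H85.apx) H33.hil (H65.rnk okr) eis'

theorem cud' : CudStmt := H37.cud H37.box

theorem cus' : CusStmt := H56.cus H37.box (H39.cuc H37.box cud') (H32.sma H37.box)

theorem bad' : BadStmt := H69.bad H57.ltu H76.dns (H87.vol H29.chv) H57.cpt H37.scl cus'

theorem mct' : MctStmt := H5.mct H37.box

theorem sqf' : SqfStmt := H47.sqf okr mct'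

theorem fld' : FldStmt := H67.fld okr

theorem leo' : LeoStmt := H93.leo H65.crt

theorem clo' : CloStmt := H33.clo key' H90.biq H56.rqu fld' leo'

/-- The final theorem of the squad. -/
theorem final : ∃ X₀ : ℝ, ∀ X : ℝ, X₀ ≤ X →
    (FieldSet2 X).Finite ∧ X / 10 ^ 6 ≤ ((FieldSet2 X).ncard : ℝ) :=
  fin2 clo' key' (H83.qnm okr) bad' mct' sqf' H90.num fld' (H69.inj okr H63.uni)
    (H89.gal H63.uni fld') (H21.tow (H83.gup H11.loc)) leo'

end Pool.Agent.Leo4
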