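import Pool.Agent.Helper68_Leo4.Fin

/-!
Squad leo4, module FIN2: the assembly with the octic Galois closure.
-/

set_option autoImplicit false

open NumberField IsDedekindDomain Module Filter Topology
open Pool.Agent.Helper85_Leo Pool.Agent.Leo3

namespace Pool.Agent.Leo4

/-- The fields counted in the final theorem. -/
def FieldSet2 (X : ℝ) : Set (IntermediateField ℚ ℝ) :=
  {K | ∃ _ : NumberField K, finrank ℚ K = 4 ∧ IsTotallyReal K ∧ ¬ IsGalois ℚ K ∧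
    (discr K : ℝ) ≤ X ∧
    (∀ (E : Type) [Field E] [NumberField E] [Algebra K E] [IsGalois K E] (j : ℕ),
      finrank K E = 3 ^ j → UnrOut K E → LeopoldtAt E 3) ∧
    ∃ (L : Type) (_ : Field L) (_ : NumberField L) (_ : Algebra K L),
      IsGalois ℚ L ∧ finrank K L = 2 ∧ LeopoldtAt L 3}

theorem fieldSet2_finite (X : ℝ) : (FieldSet2 X).Finite := by
  refine (fieldSet_finite X).subset ?_
  rintro K ⟨nK, h1, h2, h3, h4, h5, -⟩
  exact ⟨nK, h1, h2, h3, h4, h5⟩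

/-- FIN2. -/
theorem fin2 (clo : CloStmt) (key : KeyStmt) (qnm : QnmStmt) (bad : BadStmt) (mct : MctStmt) (sqf : SqfStmt)
    (num : NumStmt) (fld : FldStmt) (inj : InjStmt) (gal : GalStmt) (tow : TowStmt)
    (leo : LeoStmt) : ∃ X₀ : ℝ, ∀ X : ℝ, X₀ ≤ X →
      (FieldSet2 X).Finite ∧ X / 10 ^ 6 ≤ ((FieldSet2 X).ncard : ℝ) := by
  obtain ⟨c1, hc1⟩ : ∃ c : ℝ, c = 259200 / 6 ^ 8 * (Real.sqrt 5 * Real.pi ^ 2 * Real.log g ^ 2 / 50) :=
    ⟨_, rfl⟩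
  obtain ⟨L0, hL0⟩ : ∃ c : ℝ, c = 9 / 10 * (Real.log g / (12 * Real.sqrt 5)) := ⟨_, rfl⟩
  have hnum : c1 + 1 / 3000 < L0 := by rw [hc1, hL0]; exact num
  obtain ⟨N₁, hN₁⟩ := bad (1 / 40000) (by norm_num)
  obtain ⟨N₂, hN₂⟩ := sqf (1 / 40000) (by norm_num)
  obtain ⟨C, hC⟩ := gal
  rw [← hc1] at hN₁
  rw [← hL0] at hN₂
  obtain ⟨C', hC'⟩ : ∃ C' : ℝ, C' = max C 1 := ⟨_, rfl⟩
  have hCC : C ≤ C' := by rw [hC']; exact le_max_left _ _
  have hC1 : 1 ≤ C' := by rw [hC']; exact le_max_right _ _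
  refine ⟨225 * (|N₁| + |N₂| + (20000 * C') ^ 2), fun X hX => ⟨fieldSet2_finite X, ?_⟩⟩
  obtain ⟨N, hN⟩ : ∃ N : ℝ, N = X / 225 := ⟨_, rfl⟩
  have hXN : X = 225 * N := by rw [hN]; ring
  have hNge : |N₁| + |N₂| + (20000 * C') ^ 2 ≤ N := by
    rw [hXN] at hX
    linarith
  have hsq1 : (20000 : ℝ) ^ 2 ≤ (20000 * C') ^ 2 := by
    apply pow_le_pow_left₀ (by norm_num)
    linarith
  have hN1 : N₁ ≤ N := by
    have := le_abs_self N₁
    have := abs_nonneg N₂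
    nlinarith
  have hN2 : N₂ ≤ N := by
    have := le_abs_self N₂
    have := abs_nonneg N₁
    nlinarith
  have hNone : 1 ≤ N := by
    have := abs_nonneg N₂
    have := abs_nonneg N₁
    nlinarith
  have hNC : (20000 * C') ^ 2 ≤ N := by
    have := abs_nonneg N₂
    have := abs_nonneg N₁
    linarith
  have hsqrt : 20000 * C' ≤ Real.sqrt N := Real.le_sqrt_of_sq_le hNC
  have hsN : Real.sqrt N * Real.sqrt N = N := Real.mul_self_sqrt (by linarith)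
  have hCs : C * Real.sqrt N ≤ N / 20000 := by
    have h1 : C * Real.sqrt N ≤ C' * Real.sqrt N :=
      mul_le_mul_of_nonneg_right hCC (Real.sqrt_nonneg _)
    have h2 : 20000 * C' * Real.sqrt N ≤ Real.sqrt N * Real.sqrt N :=
      mul_le_mul_of_nonneg_right hsqrt (Real.sqrt_nonneg _)
    rw [hsN] at h2
    linarith
  obtain ⟨hHfin, hHle⟩ := hN₁ N hN1
  have hGle := hN₂ N hN2
  have hJle := hC N hNone
  obtain ⟨G, hG⟩ : ∃ G : Set O, G = {m : O | Fd m ∧ Good m ∧ (nm m : ℝ) ≤ N} := ⟨_, rfl⟩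
  obtain ⟨H, hH⟩ : ∃ H : Set O, H = {m : O | ∃ v : V, Nrm N v ∧
    fM v.1 v.2.1 v.2.2.1 v.2.2.2 = m} := ⟨_, rfl⟩
  obtain ⟨J, hJ⟩ : ∃ J : Set O, J = {m : O | Fd m ∧ Good m ∧ (nm m : ℝ) ≤ N ∧
    IsGalois ℚ (Km m)} := ⟨_, rfl⟩
  rw [← hH] at hHfin hHle
  rw [← hG] at hGle
  rw [← hJ] at hJle
  have hGfin : G.Finite := by
    refine (mct.1 N).subset ?_
    rw [hG]
    rintro m ⟨h1, h2, h3⟩
    exact ⟨h1, h2.cls, h3⟩
  have hJfin : J.Finite := by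
    refine hGfin.subset ?_
    rw [hG, hJ]
    rintro m ⟨h1, h2, h3, -⟩
    exact ⟨h1, h2, h3⟩
  have hcard : (G.ncard : ℝ) ≤ (G \ (H ∪ J)).ncard + H.ncard + J.ncard := by
    have h1 := Set.ncard_le_ncard_sdiff_add_ncard G (H ∪ J) (hHfin.union hJfin)
    have h2 := Set.ncard_union_le H J
    have h3 : G.ncard ≤ (G \ (H ∪ J)).ncard + H.ncard + J.ncard := by omega
    exact_mod_cast h3
  have hmaps : ∀ m ∈ G \ (H ∪ J), Km m ∈ FieldSet2 X := by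
    rintro m ⟨hmG, hmHJ⟩
    rw [hG] at hmG
    obtain ⟨h1, h2, h3⟩ := hmG
    have hmH : m ∉ H := fun h => hmHJ (Or.inl h)
    have hmJ : m ∉ J := fun h => hmHJ (Or.inr h)
    have hnf : ¬ HasForm m := by
      intro hf
      obtain ⟨v, hv1, hv2⟩ := qnm N m h2.cls (bal_of_fd h1) h2.pos1 h2.pos2 h3 hf
      apply hmH
      rw [hH]
      exact ⟨v, hv1, hv2⟩
    obtain ⟨nK, k1, k2, k3, k4, f, r, k5, k6⟩ := fld m h2
    have k7 : NoMu (Km m) ∧ W (Km m) := key (Km m) f r m k1 k5 k6 h2 hnf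
    have hng : ¬ IsGalois ℚ (Km m) := by
      intro hg
      apply hmJ
      rw [hJ]
      exact ⟨h1, h2, h3, hg⟩
    obtain ⟨L, iL, nL, aL, l1, l2, l3⟩ := clo m h2 hnf hng
    refine ⟨nK, k1, k2, hng, ?_, ?_, L, iL, nL, aL, l1, l2, l3⟩
    · refine k4.trans ?_
      rw [hXN]
      linarith
    · intro E iE nE aE gE j hj hunr
      obtain ⟨hNE, hWE⟩ := tow (Km m) E j hj hunr k7.1 k7.2
      exact leo E hNE hWE
  have hinj : Set.InjOn Km (G \ (H ∪ J)) := by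
    intro m hm m' hm' heq
    have hmG := hm.1
    have hmG' := hm'.1
    rw [hG] at hmG hmG'
    exact inj m m' hmG.2.1 hmG'.2.1 hmG.1 hmG'.1 heq
  have hfinal := Set.ncard_le_ncard_of_injOn Km hmaps hinj (fieldSet2_finite X)
  have hfinal' : ((G \ (H ∪ J)).ncard : ℝ) ≤ (FieldSet2 X).ncard := by exact_mod_cast hfinal
  refine le_trans ?_ hfinal'
  have h5 : L0 * N - c1 * N ≥ 1 / 3000 * N := by nlinarith
  rw [hXN]
  linarith

end Pool.Agent.Leo4
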